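import Pool.Agent.R498.MP.StrC

set_option autoImplicit false

/-!
# Primes with index in a residue class starting almost prime Cunningham chains
-/

namespace Pool.Agent.Results.MP_c183ae_nt.IndexClasses

open Filter

/-- `n` has at most `r` prime factors, counted with multiplicity, all of them at least `w`. -/
def AlmostPrime (r : ℕ) (w : ℝ) (n : ℕ) : Prop :=
  n.primeFactorsList.length ≤ r ∧ ∀ q : ℕ, q.Prime → q ∣ n → w ≤ q

/-- The `j`-th prime: `pr 1 = 2`, `pr 2 = 3`, and so on. -/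
noncomputable def pr (j : ℕ) : ℕ := Nat.nth Nat.Prime (j - 1)

/-- The map `z ↦ 2 z + b`. -/
def S (b z : ℤ) : ℤ := 2 * z + b

theorem iter (b z : ℤ) (i : ℕ) : (S b)^[i] z = 2 ^ i * z + b * (2 ^ i - 1) := by
  induction i with
  | zero => simp
  | succ i ih =>
    rw [Function.iterate_succ_apply', ih, S]
    ring

/-- The product of the iterates of `S b` of order `1, ..., m`, as a polynomial. -/
noncomputable def F (b : ℤ) (m : ℕ) : Polynomial ℤ :=
  ∏ i ∈ Finset.range m, (Polynomial.C (2 ^ (i + 1)) * Polynomial.X + Polynomial.C (b * (2 ^ (i + 1) - 1)))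

theorem F_eval (b : ℤ) (m : ℕ) (n : ℤ) : (F b m).eval n = ∏ i ∈ Finset.range m, (S b)^[i + 1] n := by
  unfold F
  rw [Polynomial.eval_prod]
  refine Finset.prod_congr rfl fun i _ => ?_
  rw [iter]
  simp

theorem iter_odd (b : ℤ) (hb : b = 1 ∨ b = -1) (i : ℕ) (n : ℤ) : ¬ (2 : ℤ) ∣ (S b)^[i + 1] n := by
  rw [Function.iterate_succ_apply', S]
  intro h
  rw [dvd_add_right (dvd_mul_right _ _)] at h
  rcases hb with hb | hb <;> subst hb <;> norm_num at h

theorem nonzero (b : ℤ) (hb : b = 1 ∨ b = -1) (m : ℕ) (n : ℤ) : (F b m).eval n ≠ 0 := by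
  rw [F_eval, Finset.prod_ne_zero_iff]
  intro i _ h
  apply iter_odd b hb i n
  rw [h]
  exact dvd_zero _

theorem iter_fix (b : ℤ) (i : ℕ) : (S b)^[i] (-b) = -b := by
  rw [iter]
  ring

theorem adm (b : ℤ) (hb : b = 1 ∨ b = -1) (m p : ℕ) (hp : p.Prime) :
    ∃ n : ℤ, ¬ (p : ℤ) ∣ n * (F b m).eval n := by
  refine ⟨-b, fun h => ?_⟩
  rw [F_eval] at h
  have hu : IsUnit (-b * ∏ i ∈ Finset.range m, (S b)^[i + 1] (-b)) := by
    have h1 : IsUnit (-b) := by
      rcases hb with hb | hb <;> subst hb <;> norm_num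
    refine h1.mul ?_
    simp only [iter_fix, Finset.prod_const]
    exact h1.pow _
  have h2 := isUnit_of_dvd_unit h hu
  exact hp.one_lt.ne' (by simpa using Int.natAbs_of_isUnit h2)

/-- **Strings of primes `p` with `π(p)` in a residue class starting almost prime Cunningham chains.**
Let `b = 1` (first kind) or `b = -1` (second kind), `m ≥ 0`, let `q` be squarefree and `c` such that
the iterates `S^i(c)`, `0 ≤ i ≤ m`, of `S (z) = 2 z + b` are coprime to `q` (for instance `q = 1`, or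
`c ≡ -b` modulo `q`), `u ≥ 1` and `r ≥ 0`. There are `C`, `R` and `δ > 0` such that for every `v` and
all large `N` there is a `t ≥ 1` such that the `r + 1` primes `p_j`,
`j = π(p_j) = u t + v, u (t + 1) + v, ..., u (t + r) + v`, lie in `(N, 2 N]`, in an interval of length
at most `C`, they are all `≡ c` modulo `q`, and for each of them, `p` say, `S^i(p)` has for
`i = 1, ..., m` at most `R` prime factors, all of them at least `N ^ δ`. -/
theorem result (b : ℤ) (hb : b = 1 ∨ b = -1) (m q c : ℕ) (hq : Squarefree q)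
    (hc : ∀ i ≤ m, IsCoprime ((S b)^[i] c) (q : ℤ)) (u r : ℕ) (hu : 0 < u) :
    ∃ (C R : ℕ) (δ : ℝ), 0 < δ ∧ ∀ v : ℕ, ∀ᶠ N : ℕ in atTop, ∃ t : ℕ, 0 < t ∧
      N < pr (u * t + v) ∧ pr (u * (t + r) + v) ≤ 2 * N ∧
      pr (u * (t + r) + v) ≤ pr (u * t + v) + C ∧
      ∀ i ≤ r, pr (u * (t + i) + v) ≡ c [MOD q] ∧
        ∀ j, 1 ≤ j → j ≤ m → AlmostPrime R ((N : ℝ) ^ δ) ((S b)^[j] (pr (u * (t + i) + v))).natAbs := by
  obtain ⟨C, R, δ, hδ, hmain⟩ := Pool.Agent.R498.MP.index_runsC (F b m)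
    (fun n _ => nonzero b hb m n) (fun p hp => adm b hb m p hp) q c hq (fun p hp hpq hd => by
      rw [F_eval] at hd
      have hpp : Prime (p : ℤ) := Nat.prime_iff_prime_int.1 hp
      have hpq' : (p : ℤ) ∣ q := by exact_mod_cast hpq
      rcases hpp.dvd_or_dvd hd with h | h
      · exact hpp.not_isUnit ((hc 0 (Nat.zero_le _)).isUnit_of_dvd' h hpq')
      · obtain ⟨i, hi, h⟩ := (hpp.dvd_finsetProd_iff _).1 h
        exact hpp.not_isUnit ((hc (i + 1) (Finset.mem_range.1 hi)).isUnit_of_dvd' h hpq')) u r hu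
  refine ⟨C, R, δ, hδ, fun v => ?_⟩
  filter_upwards [hmain (u + v - 1)] with N hN
  obtain ⟨k, h1, h2, h3, h4⟩ := hN
  have hj : ∀ i, pr (u * (k + 1 + i) + v) = Nat.nth Nat.Prime (u * (k + i) + (u + v - 1)) := by
    intro i
    unfold pr
    congr 1
    have : u * (k + 1 + i) = u * (k + i) + u := by ring
    omega
  refine ⟨k + 1, Nat.succ_pos k, ?_, ?_, ?_, fun i hi => ?_⟩
  · have := hj 0
    rw [add_zero, add_zero] at this
    rw [this]
    exact h1
  · rw [hj r]
    exact h2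
  · have := hj 0
    rw [add_zero, add_zero] at this
    rw [hj r, this]
    exact h3
  · rw [hj i]
    obtain ⟨g1, g2⟩ := h4 i hi
    obtain ⟨-, g3, g4⟩ := g2
    rw [F_eval] at g3 g4
    refine ⟨g1, fun j hj1 hj2 => ?_⟩
    obtain ⟨j, rfl⟩ : ∃ j', j = j' + 1 := ⟨j - 1, by omega⟩
    have hdvd : (S b)^[j + 1] ((Nat.nth Nat.Prime (u * (k + i) + (u + v - 1)) : ℕ) : ℤ) ∣
        ∏ i' ∈ Finset.range m, (S b)^[i' + 1] ((Nat.nth Nat.Prime (u * (k + i) + (u + v - 1)) : ℕ) : ℤ) :=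
      Finset.dvd_prod_of_mem
        (fun i' => (S b)^[i' + 1] ((Nat.nth Nat.Prime (u * (k + i) + (u + v - 1)) : ℕ) : ℤ))
        (Finset.mem_range.2 hj2)
    have hne : (∏ i' ∈ Finset.range m,
        (S b)^[i' + 1] ((Nat.nth Nat.Prime (u * (k + i) + (u + v - 1)) : ℕ) : ℤ)).natAbs ≠ 0 := by
      rw [Int.natAbs_ne_zero, ← F_eval]
      exact nonzero b hb m _
    exact ⟨(Nat.primeFactorsList_sublist_of_dvd (Int.natAbs_dvd_natAbs.2 hdvd) hne).length_le.trans g3,
      fun l hl hd => g4 l hl ((Int.natCast_dvd.2 hd).trans hdvd)⟩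

end Pool.Agent.Results.MP_c183ae_nt.IndexClasses
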