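import Pool.Agent.TH977.PW.Inst

set_option autoImplicit false

/-!
# Regular neighbourhoods of the primes starting Cunningham chains

Let `b = 1` (first kind) or `b = -1` (second kind), `S (z) = 2 z + b`, and let `R b m r` be the set of
the `n` for which all prime factors of `n, S (n), ..., S^m (n)` are larger than `n ^ (1 / r)`; it
contains all the first terms of Cunningham chains of length `m + 1`. With `k = m + 1` there are at
least `κ X / log ^ k X` primes `p` in `(X, 2 X]` in `R b m r` such that the `S^j (p)`, `j ≤ m`, have at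
most `r` prime factors. Let `A` be an ARBITRARY subset of `R b m r` (for example the set of all first
terms of chains of length `m + 1`). In every short interval `(X, X + Y]`, `X ^ θ ≤ Y ≤ X / 2`, all but
`ε Y / log ^ k X` of the elements of `A` are regular points of `A`: the elements of `A` in ALL
intervals of length between `log ^ k X / c` and `Y` around them have the right order, and constant
density up to `δ` at all but `B (ε, δ)` dyadic scales.
-/

namespace Pool.Agent.Results.MP_c183ae_nt.RegularNeighbourhoods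

open Finset Filter
open Pool.Agent.TH977.PW (N Irregular)

/-- The map `z ↦ 2 z + b`. -/
def S (b z : ℤ) : ℤ := 2 * z + b

theorem iter (b z : ℤ) (i : ℕ) : (S b)^[i] z = 2 ^ i * z + b * (2 ^ i - 1) := by
  induction i with
  | zero => simp
  | succ i ih =>
    rw [Function.iterate_succ_apply', ih, S]
    ring

/-- All prime factors of `n, S (n), ..., S^m (n)` are larger than `n ^ (1 / r)`. -/
def R (b : ℤ) (m r : ℕ) : Set ℕ :=
  {n | ∀ p : ℕ, p.Prime → (∃ j ≤ m, (p : ℤ) ∣ (S b)^[j] n) → (n : ℝ) ^ (1 / (r : ℝ)) < (p : ℝ)}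

theorem val_eq (b : ℤ) (i n : ℕ) :
    ((2 ^ (i + 1) : ℕ) : ℤ) * (n : ℤ) + b * (2 ^ (i + 1) - 1) = (S b)^[i + 1] n := by
  rw [iter]
  push_cast
  ring

theorem iter_fix (b : ℤ) (i : ℕ) : (S b)^[i] (-b) = -b := by
  rw [iter]
  ring

theorem le_iter (b : ℤ) (hb : b = 1 ∨ b = -1) (j p : ℕ) (hp : 2 ≤ p) : p ≤ ((S b)^[j] p).natAbs := by
  have h1 : (1 : ℤ) ≤ 2 ^ j := one_le_pow₀ (by norm_num)
  have h2 : (p : ℤ) ≤ (S b)^[j] p := by
    rw [iter]
    have h3 : (2 : ℤ) ≤ p := by exact_mod_cast hp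
    rcases hb with hb | hb <;> subst hb <;> nlinarith
  omega

/-- **Regular neighbourhoods of the primes starting Cunningham chains.** -/
theorem result (b : ℤ) (hb : b = 1 ∨ b = -1) (m : ℕ) (θ : ℝ) (hθ : 0 < θ) (hθ1 : θ ≤ 1) :
    ∃ r₀ : ℕ, 2 ≤ r₀ ∧ ∀ r : ℕ, r₀ ≤ r →
      (∀ p : ℕ, (∀ j ≤ m, ((S b)^[j] p).natAbs.Prime) → p ∈ R b m r) ∧
      (∃ κ : ℝ, 0 < κ ∧ ∀ᶠ X : ℕ in atTop, κ * X / Real.log X ^ (m + 1) ≤
        N {p | p.Prime ∧ p ∈ R b m r ∧ ∀ j ≤ m, ((S b)^[j] p).natAbs.primeFactorsList.length ≤ r}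
          X (2 * X)) ∧
      ∀ ε : ℝ, 0 < ε → ∃ c : ℝ, 0 < c ∧ ∀ δ : ℝ, 0 < δ → ∃ B : ℕ,
        ∀ᶠ X : ℕ in atTop, ∀ Y : ℕ, (X : ℝ) ^ θ ≤ Y → 2 * Y ≤ X → ∀ A : Set ℕ, A ⊆ R b m r →
          (N (Irregular A (m + 1) c δ B X Y) X (X + Y) : ℝ) ≤ ε * Y / Real.log X ^ (m + 1) := by
  obtain ⟨r0, hr0, h⟩ := Pool.Agent.TH977.PW.final_lin_prime (ι := Fin m)
    (fun i => 2 ^ (i.1 + 1)) (fun i => b * (2 ^ (i.1 + 1) - 1)) (fun i => by positivity)
    (fun i => by
      rcases hb with hb | hb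
      · subst hb
        exact ⟨1, -1, by push_cast; ring⟩
      · subst hb
        exact ⟨1, 1, by push_cast; ring⟩)
    (fun i j hij _ => by
      have h1 := Nat.pow_right_injective le_rfl hij
      exact Fin.ext (by omega))
    (fun i h => by
      have h1 : 1 < 2 ^ (i.1 + 1) := Nat.one_lt_two_pow (by omega)
      omega)
    (fun p hp => by
      have hpp : Prime (p : ℤ) := Nat.prime_iff_prime_int.1 hp
      obtain ⟨n, hn⟩ : ∃ n : ℕ, (p : ℤ) ∣ (n : ℤ) + b := by
        rcases hb with hb | hb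
        · exact ⟨p - 1, by
            subst hb
            rw [Nat.cast_sub hp.one_le]
            push_cast
            ring_nf
            exact dvd_refl _⟩
        · exact ⟨1, by subst hb; norm_num⟩
      have hu : ∀ x : ℤ, (p : ℤ) ∣ x + b → ¬ (p : ℤ) ∣ x := by
        intro x h1 h2
        have h3 : (p : ℤ) ∣ b := (dvd_add_right h2).1 h1
        apply hpp.not_isUnit
        refine isUnit_of_dvd_unit h3 ?_
        rcases hb with hb | hb <;> subst hb <;> norm_num
      refine ⟨n, fun h => hu n hn (by exact_mod_cast h), fun i => hu _ ?_⟩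
      have : ((2 ^ (i.1 + 1) : ℕ) : ℤ) * (n : ℤ) + b * (2 ^ (i.1 + 1) - 1) + b =
        2 ^ (i.1 + 1) * (n + b) := by
        push_cast
        ring
      rw [this]
      exact hn.mul_left _)
    (fun r => R b m r)
    (fun r => {p | p.Prime ∧ p ∈ R b m r ∧ ∀ j ≤ m, ((S b)^[j] p).natAbs.primeFactorsList.length ≤ r})
    (m + 1) (by rw [Fintype.card_fin])
    (fun r n _ hn => ⟨fun p hp hd => hn p hp ⟨0, Nat.zero_le _, by simpa using (by exact_mod_cast hd : (p : ℤ) ∣ n)⟩,
      fun i p hp hd => hn p hp ⟨i.1 + 1, i.2, by rwa [← val_eq]⟩⟩)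
    (fun r n hr hn h1 h2 => ⟨hn, fun p hp hd => by
      obtain ⟨j, hj, hd⟩ := hd
      rcases j with _ | j
      · exact Pool.Agent.TH977.PW.rpow_lt_dvd r n p hr hn hp (by
          have : (p : ℤ) ∣ n := by simpa using hd
          exact_mod_cast this)
      · exact h1 ⟨j, hj⟩ p hp (by rwa [val_eq]), fun j hj => by
      rcases j with _ | j
      · simp only [Function.iterate_zero, id_eq, Int.natAbs_natCast]
        rw [Nat.primeFactorsList_prime hn]
        simp
        omega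
      · have h3 := h2 ⟨j, hj⟩
        rwa [val_eq] at h3⟩) θ hθ hθ1
  refine ⟨r0, hr0, fun r hr => ⟨fun p hq l hl hd => ?_, (h r hr).1, (h r hr).2⟩⟩
  have hp : p.Prime := by simpa using hq 0 (Nat.zero_le _)
  obtain ⟨j, hj, hd⟩ := hd
  rw [(Nat.prime_dvd_prime_iff_eq hl (hq j hj)).1 (Int.natCast_dvd.1 hd)]
  exact Pool.Agent.TH977.PW.rpow_lt_of_le r p _ (hr0.trans hr) hp.two_le (le_iter b hb j p hp.two_le)

end Pool.Agent.Results.MP_c183ae_nt.RegularNeighbourhoods
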