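import Pool.Agent.H95SD.CunC
import Pool.Agent.H95SD.CunS
import Pool.Agent.H95SD.Sift

/-!
# Prime times in the orbits of affine maps, with all differences in a sparse set

Let `S z = a z + b` with `a ≥ 2` and `b` coprime to `a`. For `a = 2`, `b = 1` the Cunningham chains of the first
kind are the sequences of primes `m, S(m), S²(m), ...`, for `a = 2`, `b = -1` the chains of the second kind. The
question asks for primes at the times `0, 1, 2, ..., k`.

Let `E` be a finite set of natural numbers with `18 l < 5 |E|`, which misses a class modulo every prime factor of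
`a - 1` (this is no condition if `a = 2`; for `l = 1` take `E = {0, 1, 2, 3}`). If a set `A` of natural numbers
contains an arithmetic progression of `k = k(E)` terms, then there are `s_0 < ... < s_l` in `E` and times
`0 = t_0 < ... < t_l` with

  `t_j - t_i ∈ (s_j - s_i) A` for all `i < j`,

such that all `2^(l+1)` patterns of primes and composites occur at the times `t_0, ..., t_l`, for at least
`x / (log x) ^ B` of the `m ≤ x`. If `l ≥ 1`, then moreover for some `c ∈ A` and `i < j` in `E` there are infinitely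
many primes `q` whose orbit contains the next prime exactly at the time `(j - i) c`.

This applies to all relatively dense subsets `A` of arbitrary sifted sets, in arbitrary intervals, for example to
all sets of primes with a positive proportion of the primes of an interval; there the progression does not depend
on the map. In particular, for almost all PRIMES `c`, and for almost all elements `c` of every sifted set, one of
`c, 2 c, 3 c` is exactly the time between two consecutive primes of an orbit of `z ↦ 2 z + 1`, for infinitely many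
orbits, and similarly for `z ↦ 2 z - 1`.

Starting files: the relative Szemerédi theorem for sifted sets (`Pool.Agent.Y843.HS.fin`), the uniform covering
theorem by almost complete sets of linear forms (`Pool.Agent.N646.AC.covU`), the congruences for orbits
(`Pool.Agent.N694.OB.block`).
-/

set_option autoImplicit false

open Finset Filter

namespace Pool.Agent.Results.MP_c183ae_nt.TimesInSiftedSets

/-- the affine map `z ↦ a z + b`: for `a = 2` and `b = 1`, `b = -1` the maps of the Cunningham chains of the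
first and of the second kind -/
def S (a : ℕ) (b : ℤ) (z : ℤ) : ℤ := a * z + b

/-- The number of the `1 ≤ m ≤ x` for which `S^(t i)(m)` is prime exactly for the `i ∈ J`. -/
noncomputable def patterns (a : ℕ) (b : ℤ) {l : ℕ} (t : Fin (l + 1) → ℕ) (J : Finset (Fin (l + 1)))
    (x : ℕ) : ℕ :=
  {m : ℕ | 1 ≤ m ∧ m ≤ x ∧ ∀ i, ((S a b)^[t i] m).toNat.Prime ↔ i ∈ J}.ncard

/-- The number of the primes `q ≤ x` for which `S^s(q)` is prime and no `S^t(q)`, `0 < t < s`, is prime. -/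
noncomputable def steps (a : ℕ) (b : ℤ) (s x : ℕ) : ℕ :=
  {q : ℕ | q ≤ x ∧ q.Prime ∧ ((S a b)^[s] q).toNat.Prime ∧
    ∀ t, 0 < t → t < s → ¬ ((S a b)^[t] q).toNat.Prime}.ncard

/-- `s` is an increasing list of elements of `E`, `t` starts with `0`, and every difference `t j - t i`, `i < j`, is
`(s j - s i) c` for some element `c` of `A`. -/
def Times (E : Finset ℕ) (A : Set ℕ) {l : ℕ} (s t : Fin (l + 1) → ℕ) : Prop :=
  StrictMono s ∧ (∀ i, s i ∈ E) ∧ t 0 = 0 ∧ ∀ i j, i < j → ∃ c ∈ A, t j = t i + (s j - s i) * c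

/-- `n` avoids the residue classes of `Z p` modulo `p` for all primes `p ≤ H ^ κ`. -/
def Sifted (κ : ℝ) (H : ℕ) (Z : ℕ → Finset ℕ) (n : ℕ) : Prop :=
  ∀ p : ℕ, p.Prime → (p : ℝ) ≤ (H : ℝ) ^ κ → n % p ∉ Z p

/-- For all primes `p ≤ H ^ κ`, `Z p` is a set of at most `r` of the residues modulo `p`, not all of them. -/
def Sieve (r : ℕ) (κ : ℝ) (H : ℕ) (Z : ℕ → Finset ℕ) : Prop :=
  ∀ p : ℕ, p.Prime → (p : ℝ) ≤ (H : ℝ) ^ κ → (Z p).card ≤ r ∧ (Z p).card < p ∧ ∀ c ∈ Z p, c < p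

/-- The expected number of sifted elements of an interval of length `H`. -/
noncomputable def expected (κ : ℝ) (H : ℕ) (Z : ℕ → Finset ℕ) : ℝ :=
  H * ∏ p ∈ (Icc 1 ⌊(H : ℝ) ^ κ⌋₊).filter Nat.Prime, (1 - ((Z p).card : ℝ) / p)

open Classical in
/-- In the window `(u, u + H]` the property `P` holds for at most `ε H / log H` primes, and for at most `ε`
times the expected number of elements of every sifted set. -/
def Few (r : ℕ) (κ ε : ℝ) (u H : ℕ) (P : ℕ → Prop) : Prop :=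
  (((Ioc u (u + H)).filter (fun k => k.Prime ∧ P k)).card : ℝ) ≤ ε * (H / Real.log H) ∧
  ∀ Z : ℕ → Finset ℕ, Sieve r κ H Z →
    (((Ioc u (u + H)).filter (fun k => Sifted κ H Z k ∧ P k)).card : ℝ) ≤ ε * expected κ H Z

/-- The map `z ↦ a z + b`, `a ≥ 2`, `b` coprime to `a`, has no local obstruction for `E`: the set `E` misses a
residue class modulo every prime factor of `a - 1`. -/
def Admissible (E : Finset ℕ) (a : ℕ) (b : ℤ) : Prop :=
  2 ≤ a ∧ IsCoprime (a : ℤ) b ∧ ∀ p : ℕ, p.Prime → p ∣ a - 1 → ∃ r < p, ∀ s ∈ E, s % p ≠ r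

/-- For some `i < j` in `E` there are at least `x / (log x) ^ B` primes `q ≤ x` for which the next prime of the
orbit of `q` comes at the time `(j - i) c`. -/
def GoodAt (E : Finset ℕ) (B : ℕ) (a : ℕ) (b : ℤ) (x c : ℕ) : Prop :=
  ∃ i ∈ E, ∃ j ∈ E, i < j ∧ (x : ℝ) / Real.log x ^ B ≤ (steps a b ((j - i) * c) x : ℝ)

/-- For some `i < j` in `E` there are, for arbitrarily large `x`, at least `x / (log x) ^ B` primes `q ≤ x` for
which the next prime of the orbit of `q` comes at the time `(j - i) c`. -/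
def Good (E : Finset ℕ) (B : ℕ) (a : ℕ) (b : ℤ) (c : ℕ) : Prop :=
  ∃ i ∈ E, ∃ j ∈ E, i < j ∧ ∃ᶠ x : ℕ in atTop, (x : ℝ) / Real.log x ^ B ≤ (steps a b ((j - i) * c) x : ℝ)

/-- The times exist at all large scales, some of them at infinitely many scales, and for `l ≥ 1` there are also the
orbits with consecutive primes. -/
def Rich (E : Finset ℕ) (l B : ℕ) (a : ℕ) (b : ℤ) (A : Set ℕ) : Prop :=
  (∀ᶠ x : ℕ in atTop, ∃ s t : Fin (l + 1) → ℕ, Times E A s t ∧
    ∀ J : Finset (Fin (l + 1)), (x : ℝ) / Real.log x ^ B ≤ (patterns a b t J x : ℝ)) ∧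
  (∃ s t : Fin (l + 1) → ℕ, Times E A s t ∧ ∃ᶠ x : ℕ in atTop,
    ∀ J : Finset (Fin (l + 1)), (x : ℝ) / Real.log x ^ B ≤ (patterns a b t J x : ℝ)) ∧
  (1 ≤ l → (∀ᶠ x : ℕ in atTop, ∃ c ∈ A, GoodAt E B a b x c) ∧ ∃ c ∈ A, Good E B a b c)

open Pool.Agent.H95SD.CN Pool.Agent.N694.OB

theorem iter_eq (a : ℕ) (b : ℤ) (t : ℕ) (x : ℤ) : (S a b)^[t] x = va a b t x :=
  Pool.Agent.N694.OB.iter a b t x

theorem patterns_eq (a : ℕ) (b : ℤ) {l : ℕ} (t : Fin (l + 1) → ℕ) (J : Finset (Fin (l + 1)))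
    (x : ℕ) : patterns a b t J x = ptn a b t J x := by
  classical
  unfold patterns ptn
  rw [← Set.ncard_coe_finset]
  congr 1
  ext m
  rw [coe_filter]
  simp only [Set.mem_ofPred_eq, mem_Icc, iter_eq, and_assoc]

theorem steps_eq (a : ℕ) (b : ℤ) (s x : ℕ) : steps a b s x = nxt a b s x := by
  classical
  unfold steps nxt
  rw [← Set.ncard_coe_finset]
  congr 1
  ext q
  rw [coe_filter]
  simp only [Set.mem_ofPred_eq, mem_Icc, iter_eq]
  constructor
  · rintro ⟨h1, h2, h3⟩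
    exact ⟨⟨h2.one_lt.le, h1⟩, h2, h3⟩
  · rintro ⟨⟨-, h1⟩, h2, h3⟩
    exact ⟨h1, h2, h3⟩

theorem times_of {E : Finset ℕ} {A : Set ℕ} {l : ℕ} {s t : Fin (l + 1) → ℕ} (h : Tim E A s t) :
    Times E A s t := ⟨h.mono, h.mem, h.zero, h.diff⟩

theorem Rich.mono {E : Finset ℕ} {l B a : ℕ} {b : ℤ} {A A' : Set ℕ} (h : Rich E l B a b A)
    (hA : A ⊆ A') : Rich E l B a b A' := by
  have key : ∀ s t : Fin (l + 1) → ℕ, Times E A s t → Times E A' s t := by
    rintro s t ⟨h1, h2, h3, h4⟩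
    refine ⟨h1, h2, h3, fun i j hij => ?_⟩
    obtain ⟨c, hc, h5⟩ := h4 i j hij
    exact ⟨c, hA hc, h5⟩
  obtain ⟨h1, ⟨s, t, hp, hx⟩, h3⟩ := h
  refine ⟨h1.mono fun x hx => ?_, ⟨s, t, key s t hp, hx⟩, fun hl => ⟨(h3 hl).1.mono fun x hx => ?_, ?_⟩⟩
  · obtain ⟨s, t, hp, hx⟩ := hx
    exact ⟨s, t, key s t hp, hx⟩
  · obtain ⟨c, hc, hx⟩ := hx
    exact ⟨c, hA hc, hx⟩
  · obtain ⟨c, hc, hx⟩ := (h3 hl).2
    exact ⟨c, hA hc, hx⟩

theorem expected_eq (κ : ℝ) (H : ℕ) (Z : ℕ → Finset ℕ) :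
    expected κ H Z = H * Pool.Agent.Y843.HS.VV Z 0 ⌊(H : ℝ) ^ κ⌋₊ := rfl

theorem sieve_primes (H : ℕ) : Sieve 1 (1 / 2) H (fun _ => {0}) := by
  intro p hp _
  refine ⟨by simp, ?_, fun c hc => ?_⟩
  · rw [card_singleton]; exact hp.one_lt
  · rw [mem_singleton.1 hc]; exact hp.pos

open Classical in
/-- a property which holds for no `k` terms of a progression -/
theorem few_of (k r : ℕ) (κ ε : ℝ) (hk : 2 ≤ k) (hκ : 0 < κ) (hε : 0 < ε) : ∃ H₁ : ℕ,
    ∀ H u : ℕ, H₁ ≤ H → ∀ P : ℕ → Prop,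
    (∀ α d : ℕ, 1 ≤ α → 1 ≤ d → α ≤ u + H → d ≤ u + H → ∃ j < k, ¬ P (α + j * d)) →
    Few r κ ε u H P := by
  obtain ⟨D₁, H₁, h1⟩ := Pool.Agent.H95SD.sift 1 k r κ ε hk hκ hε
  obtain ⟨D₂, H₂, h2⟩ := Pool.Agent.H95SD.sift 1 k 1 (1 / 2) (ε / 4) hk (by norm_num) (by positivity)
  obtain ⟨H₃, hp⟩ := Pool.Agent.H95SD.small_primes ε hε
  refine ⟨max H₁ (max H₂ H₃), fun H u hH P hP => ⟨?_, fun Z hZ => ?_⟩⟩
  · refine hp H u (by omega) _ (filter_subset _ _) (fun n hn => (mem_filter.1 hn).2.1)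
      fun A' hA' hsf => ?_
    by_contra hcon
    push Not at hcon
    obtain ⟨α, d, hα, hd, hj, -, -⟩ := h2 H u (by omega) _ (sieve_primes H) A'
      (hA'.trans (filter_subset _ _)) hsf hcon.le
    have hin : ∀ j < k, α + j * d ≤ u + H := fun j hjk =>
      (mem_Ioc.1 (mem_filter.1 (hA' (hj j hjk))).1).2
    obtain ⟨j, hjk, hPj⟩ := hP α d hα hd (by have := hin 0 (by omega); omega)
      (by have := hin 1 (by omega); omega)
    exact hPj ((mem_filter.1 (hA' (hj j hjk))).2.2)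
  · by_contra hcon
    push Not at hcon
    rw [expected_eq, ← mul_assoc] at hcon
    obtain ⟨α, d, hα, hd, hj, -, -⟩ := h1 H u (by omega) Z hZ _ (filter_subset _ _)
      (fun n hn => (mem_filter.1 hn).2.1) hcon.le
    have hin : ∀ j < k, α + j * d ≤ u + H := fun j hjk =>
      (mem_Ioc.1 (mem_filter.1 (hj j hjk)).1).2
    obtain ⟨j, hjk, hPj⟩ := hP α d hα hd (by have := hin 0 (by omega); omega)
      (by have := hin 1 (by omega); omega)
    exact hPj ((mem_filter.1 (hj j hjk)).2.2)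

open Classical in
/-- `E` is a finite set of natural numbers and `18 l < 5 |E|`.

1. (progressions) Sets which contain `k` terms of an arithmetic progression.
2. (sifted sets) Sets `A` of sifted elements of an interval `(u, u + H]` with at least `δ` times the expected
   number of elements.
3. (almost all elements) For `l ≥ 1`, that is, for all `E` with at least four elements. -/
theorem result (E : Finset ℕ) (l : ℕ) (hl : 18 * l < 5 * E.card) : ∃ B k : ℕ,
    (∀ α d : ℕ, 1 ≤ α → 1 ≤ d → ∀ (a : ℕ) (b : ℤ), Admissible E a b →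
      Rich E l B a b {n | ∃ j < k, n = α + j * d}) ∧
    (∀ (r : ℕ) (κ δ : ℝ), 0 < κ → 0 < δ → ∃ D H₀ : ℕ, ∀ H u : ℕ, H₀ ≤ H → ∀ Z : ℕ → Finset ℕ,
      Sieve r κ H Z → ∀ A : Finset ℕ, (∀ n ∈ A, u < n ∧ n ≤ u + H ∧ Sifted κ H Z n) →
      δ * expected κ H Z ≤ A.card → ∃ v : ℕ, ∀ (a : ℕ) (b : ℤ), Admissible E a b →
      Rich E l B a b {n | n ∈ A ∧ v ≤ n ∧ (n : ℝ) ≤ v + Real.log H ^ D}) ∧
    (1 ≤ l → ∀ (r : ℕ) (κ ε : ℝ), 0 < κ → 0 < ε → ∃ H₀ : ℕ, ∀ H u : ℕ, H₀ ≤ H →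
      ∀ (a : ℕ) (b : ℤ), Admissible E a b →
      Few r κ ε u H (fun c => ¬ Good E B a b c) ∧
      ∀ᶠ x : ℕ in atTop, Few r κ ε u H (fun c => ¬ GoodAt E B a b x c)) := by
  obtain ⟨B, k, hk, h⟩ := mainC E l (cpt_of _ _ hl)
  have h1 : ∀ α d : ℕ, 1 ≤ α → 1 ≤ d → ∀ (a : ℕ) (b : ℤ), Admissible E a b →
      Rich E l B a b {n | ∃ j < k, n = α + j * d} := by
    intro α d hα hd a b hab
    obtain ⟨h1, ⟨s, t, hst, h2⟩, h3, h4⟩ := h a b hab.1 hab.2.1 hab.2.2 α d hα hd
      {n | ∃ j < k, n = α + j * d} (fun j hj => ⟨j, hj, rfl⟩)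
    simp only [← patterns_eq, ← steps_eq] at h1 h2 h3 h4
    refine ⟨h1.mono fun x hx => ?_, ⟨s, t, times_of hst, h2⟩, fun hl1 => ⟨(h3 hl1).mono fun x hx => ?_, ?_⟩⟩
    · obtain ⟨s, t, hst, h5⟩ := hx
      exact ⟨s, t, times_of hst, h5⟩
    · obtain ⟨c, hc, i, hi, j, hj, hij, h5⟩ := hx
      exact ⟨c, hc, i, hi, j, hj, hij, h5⟩
    · obtain ⟨c, hc, i, hi, j, hj, hij, h5⟩ := h4 hl1
      exact ⟨c, hc, i, hi, j, hj, hij, h5⟩
  refine ⟨B, k, h1, ?_, ?_⟩
  · intro r κ δ hκ hδ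
    obtain ⟨D, H₀, hs⟩ := Pool.Agent.H95SD.sift 1 k r κ δ hk hκ hδ
    refine ⟨D, H₀, fun H u hH Z hZ A hA hc => ?_⟩
    rw [expected_eq, ← mul_assoc] at hc
    obtain ⟨α, d, hα, hd, hj, -, hD⟩ := hs H u hH Z hZ A
      (fun n hn => mem_Ioc.2 ⟨(hA n hn).1, (hA n hn).2.1⟩) (fun n hn => (hA n hn).2.2) hc
    refine ⟨α, fun a b hab => (h1 α d hα hd a b hab).mono ?_⟩
    rintro n ⟨j, hjk, rfl⟩
    refine ⟨hj j hjk, by omega, ?_⟩
    have h3 : (j * d : ℝ) ≤ k * d := by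
      have h4 : (j : ℝ) ≤ k := by exact_mod_cast hjk.le
      exact mul_le_mul_of_nonneg_right h4 (Nat.cast_nonneg _)
    push_cast
    linarith
  · intro hl1 r κ ε hκ hε
    obtain ⟨H₀, hs⟩ := few_of k r κ ε hk hκ hε
    refine ⟨H₀, fun H u hH a b hab => ⟨?_, ?_⟩⟩
    · refine hs H u hH _ fun α d hα hd _ _ => ?_
      obtain ⟨c, ⟨j, hj, rfl⟩, hg⟩ := ((h1 α d hα hd a b hab).2.2 hl1).2
      exact ⟨j, hj, fun hn => hn hg⟩
    · have h2 : ∀ᶠ x : ℕ in atTop, ∀ z ∈ (range (u + H + 1)) ×ˢ (range (u + H + 1)),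
          1 ≤ z.1 → 1 ≤ z.2 → ∃ c ∈ {n | ∃ j < k, n = z.1 + j * z.2}, GoodAt E B a b x c := by
        rw [eventually_all_finset]
        rintro ⟨α, d⟩ -
        by_cases h3 : 1 ≤ α ∧ 1 ≤ d
        · filter_upwards [((h1 α d h3.1 h3.2 a b hab).2.2 hl1).1] with x hx _ _
          exact hx
        · exact Eventually.of_forall fun x h4 h5 => absurd ⟨h4, h5⟩ h3
      filter_upwards [h2] with x hx
      refine hs H u hH _ fun α d hα hd hαH hdH => ?_
      obtain ⟨c, ⟨j, hj, hcj⟩, hg⟩ := hx (α, d)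
        (mem_product.2 ⟨mem_range.2 (by omega), mem_range.2 (by omega)⟩) hα hd
      simp only at hcj
      subst hcj
      exact ⟨j, hj, fun hn => hn hg⟩

end Pool.Agent.Results.MP_c183ae_nt.TimesInSiftedSets
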