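import Mathlib
import Pool.Agent.H12x.NC.Iter

/-!
# Exponents which serve all Cunningham-like chains

Let `S z = a z + b`; for `a = 2`, `b = 1` the Cunningham chains of the first kind are the sequences of primes
`q, S(q), S²(q), ...`, for `a = 2`, `b = -1` the chains of the second kind.

There is ONE sequence of exponents `e_0, e_1, ...` such that for EVERY map `S z = a z + b` with `a ≥ 1`, `b` coprime
to `a`, `S` different from the identity, there is an index `ρ` with the following property. For all
`ρ ≤ m_1 < m_2 < ... < m_k` and all `R` there are infinitely many primes `q` such that among the first `R + 1` terms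
`q, S(q), ..., S^R(q)` of the orbit of `q` exactly those with the exponents

`0, e_(m_1), e_(m_1) + e_(m_2), ..., e_(m_1) + ... + e_(m_k)`

are prime (`R` large). More generally, the `e_m` can be replaced by the sums of the `e_m` over the members
of any finite sets `α_0 < α_1 < ... < α_(L-1)` of indices `≥ ρ`.

This is the case of constant sequences of maps (for all the countably many maps at the same time) of the
theorem on nested compositions `Pool.Agent.H12x.NC.main`.
-/

set_option autoImplicit false

namespace Pool.Agent.Results.MP_c183ae_nt.UniversalExponents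

open Finset

/-- the affine map `z ↦ a z + b`: for `a = 2` and `b = 1`, `b = -1` the maps of the Cunningham chains of the
first and of the second kind -/
def S (a b z : ℤ) : ℤ := a * z + b

/-- a sequence of successive nonempty finite sets `A 0 < A 1 < ...` -/
def Blocks (A : ℕ → Finset ℕ) : Prop := (∀ m, (A m).Nonempty) ∧ ∀ m, ∀ i ∈ A m, ∀ j ∈ A (m + 1), i < j

theorem result : ∃ e : ℕ → ℕ, (∀ m, 1 ≤ e m) ∧ ∀ a b : ℤ, 1 ≤ a → IsCoprime a b → (a, b) ≠ (1, 0) →
    ∃ ρ : ℕ, ∀ α : ℕ → Finset ℕ, Blocks α → (∀ i ∈ α 0, ρ ≤ i) → ∀ L R : ℕ,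
      {q : ℕ | ∀ t ≤ R, (((S a b)^[t] q).toNat.Prime ↔
        t = 0 ∨ ∃ l < L, t = ∑ m ∈ (range (l + 1)).biUnion α, e m)}.Infinite := by
  obtain ⟨e, he, h⟩ := Pool.Agent.H12x.NC.exponents
  refine ⟨e, he, fun a b ha hc hne => ?_⟩
  obtain ⟨ρ, hρ⟩ := h a b ha hc hne
  exact ⟨ρ, fun α hα => hρ α (Pool.Agent.H12x.NC.Succ.of_blocks hα)⟩

end Pool.Agent.Results.MP_c183ae_nt.UniversalExponents
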